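import Pool.Agent.H62.HIL.Tg
import Pool.Agent.H20.SFG.HMP

/-!
Module HMP: homogeneous elements of `k[v]` (from the statement of `H17/SD` proved in `H20/SFG`)
and of `k(v)`.
-/

set_option autoImplicit false

namespace Pool.Agent.H14.SFH

open MvPolynomial SC Pool.Agent.H27.LV Pool.Agent.H92.SF Pool.Agent.H3.SF

/-- the Euler derivation of `k[x]` -/
noncomputable def eu (k : Type) [Field k] (n : ℕ) :
    Derivation k (MvPolynomial (Fin n) k) (MvPolynomial (Fin n) k) :=
  mkDerivation k X

variable {k : Type} [Field k] {n : ℕ}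

theorem eu_monomial (s : Fin n →₀ ℕ) (c : k) :
    eu k n (monomial s c) = C (s.degree : k) * monomial s c := by
  classical
  unfold eu
  rw [mkDerivation_monomial, Finsupp.sum, Finset.smul_sum, Finsupp.degree_apply, Nat.cast_sum,
    map_sum, Finset.sum_mul]
  refine Finset.sum_congr rfl fun i hi => ?_
  have h1 : s - Finsupp.single i 1 + Finsupp.single i 1 = s := by
    ext j
    simp only [Finsupp.coe_add, Finsupp.coe_tsub, Pi.add_apply, Pi.sub_apply]
    by_cases hj : i = j
    · subst hj
      have h2 : s i ≠ 0 := Finsupp.mem_support_iff.1 hi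
      rw [Finsupp.single_eq_same]
      omega
    · rw [Finsupp.single_eq_of_ne (Ne.symm hj)]
      omega
  rw [smul_eq_mul, X, monomial_mul, h1, mul_one, smul_monomial, C_mul_monomial, smul_eq_mul,
    mul_comm]

theorem coeff_eu (m : Fin n →₀ ℕ) (p : MvPolynomial (Fin n) k) :
    coeff m (eu k n p) = (m.degree : k) * coeff m p := by
  classical
  induction p using MvPolynomial.induction_on' with
  | monomial u a =>
    rw [eu_monomial, coeff_C_mul, coeff_monomial]
    split_ifs with h
    · rw [h]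
    · rw [mul_zero, mul_zero]
  | add p q hp hq => rw [map_add, coeff_add, hp, hq, coeff_add, mul_add]

theorem aeval_eu {F : Type} [Field F] [Algebra k F] {v : Fin n → F} {E : Derivation k F F}
    (hE : ∀ i, E (v i) = v i) (p : MvPolynomial (Fin n) k) :
    E (aeval v p) = aeval v (eu k n p) := by
  classical
  induction p using MvPolynomial.induction_on' with
  | monomial u a =>
    rw [eu_monomial, Pool.Agent.H20.SFG.eu_mono hE, map_mul, aeval_C, map_natCast]
  | add p q hp hq => rw [map_add, map_add, hp, hq, map_add, map_add]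

theorem totalDegree_eu_le (q : MvPolynomial (Fin n) k) :
    (eu k n q).totalDegree ≤ q.totalDegree := by
  unfold totalDegree
  apply Finset.sup_mono
  intro s hs
  rw [mem_support_iff] at hs ⊢
  intro h
  apply hs
  rw [coeff_eu, h, mul_zero]

theorem hom_of_eu [CharZero k] (q : MvPolynomial (Fin n) k) (c : k) (hq : q ≠ 0)
    (h : eu k n q = C c * q) : ∃ m : ℕ, (m : k) = c ∧ q.IsHomogeneous m := by
  have hc : ∀ s, coeff s q ≠ 0 → (s.degree : k) = c := by
    intro s hs
    have h1 := congrArg (coeff s) h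
    rw [coeff_eu, coeff_C_mul] at h1
    exact mul_right_cancel₀ hs h1
  obtain ⟨s, hs⟩ := exists_coeff_ne_zero hq
  refine ⟨s.degree, hc s hs, ?_⟩
  intro m hm
  rw [Pool.Agent.H20.SFG.wt_one]
  have h1 := (hc m hm).trans (hc s hs).symm
  exact_mod_cast h1

/-- a homogeneous element of `k(v)` is a quotient of coprime forms -/
theorem hom_frac [CharZero k] {F : Type} [Field F] [Algebra k F] (v : Fin n → F)
    (E : Derivation k F F) (hv : AlgebraicIndependent k v) (hE : ∀ i, E (v i) = v i)
    (h1 : ∀ (t : ℤ) (p : MvPolynomial (Fin n) k), p ≠ 0 → Hm k E t (aeval v p) →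
      ∃ e : ℕ, (e : ℤ) = t ∧ p.IsHomogeneous e) (t : ℤ) (z : F) (hz : z ∈ kF k v)
    (ht : Hm k E t z) : ∃ (e h : ℕ) (p q : MvPolynomial (Fin n) k),
    q ≠ 0 ∧ IsRelPrime p q ∧ p.IsHomogeneous e ∧ q.IsHomogeneous h ∧ z * aeval v q = aeval v p ∧
    (p ≠ 0 → (e : ℤ) - h = t) := by
  have hinj : Function.Injective (aeval v : MvPolynomial (Fin n) k →ₐ[k] F) := hv
  by_cases hz0 : z = 0
  · refine ⟨0, 0, 0, 1, one_ne_zero, isRelPrime_one_right, isHomogeneous_zero _ _ _,
      isHomogeneous_one _ _, ?_, fun h => absurd rfl h⟩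
    rw [hz0, zero_mul, map_zero]
  · obtain ⟨r, s, hrs⟩ := (IntermediateField.mem_adjoin_range_iff k v z).1 hz
    have has : aeval v s ≠ 0 := by
      intro h
      rw [h, div_zero] at hrs
      exact hz0 hrs
    have hs0 : s ≠ 0 := by
      rintro rfl
      exact has (map_zero _)
    obtain ⟨p, q, c, hpq, hcp, hcq⟩ :=
      UniqueFactorizationMonoid.exists_reduced_factors' r s hs0
    have hc0 : c ≠ 0 := by
      rintro rfl
      rw [zero_mul] at hcq
      exact hs0 hcq.symm
    have hq0 : q ≠ 0 := by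
      rintro rfl
      rw [mul_zero] at hcq
      exact hs0 hcq.symm
    have hac : aeval v c ≠ 0 := fun h => hc0 (hinj (h.trans (map_zero _).symm))
    have haq : aeval v q ≠ 0 := fun h => hq0 (hinj (h.trans (map_zero _).symm))
    have hzq : z * aeval v q = aeval v p := by
      rw [← hcp, ← hcq, map_mul, map_mul, mul_div_mul_left _ _ hac] at hrs
      rw [hrs, div_mul_cancel₀ _ haq]
    have hp0 : p ≠ 0 := by
      rintro rfl
      rw [map_zero] at hzq
      rcases mul_eq_zero.1 hzq with h | h
      · exact hz0 h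
      · exact haq h
    have hEz : E z = (t : F) * z := ht
    have hEq := congrArg E hzq
    rw [Derivation.leibniz, aeval_eu hE, aeval_eu hE, hEz, smul_eq_mul, smul_eq_mul] at hEq
    have hpoly : p * eu k n q + C (t : k) * p * q = eu k n p * q := by
      apply hinj
      rw [map_add, map_mul, map_mul, map_mul, map_mul, aeval_C, map_intCast, ← hEq, ← hzq]
      ring
    have hdvd : q ∣ p * eu k n q := ⟨eu k n p - C (t : k) * p, by linear_combination hpoly⟩
    have hdvd2 : q ∣ eu k n q := hpq.symm.dvd_of_dvd_mul_left hdvd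
    obtain ⟨u, hu⟩ := hdvd2
    obtain ⟨c', hc'⟩ : ∃ c' : k, u = C c' := by
      by_cases hu0 : u = 0
      · exact ⟨0, by rw [hu0, map_zero]⟩
      · have h2 := totalDegree_eu_le q
        rw [hu, totalDegree_mul_of_isDomain hq0 hu0] at h2
        have h3 : u.totalDegree = 0 := by omega
        exact ⟨_, totalDegree_eq_zero_iff_eq_C.1 h3⟩
    obtain ⟨h, hh, hqh⟩ := hom_of_eu q c' hq0 (by rw [hu, hc', mul_comm])
    have hEq2 : E (aeval v q) = (h : F) * aeval v q := by
      rw [aeval_eu hE, hu, hc', map_mul, aeval_C, ← hh, map_natCast, mul_comm]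
    have hEp : Hm k E (t + h) (aeval v p) := by
      unfold Hm
      rw [← hzq, Derivation.leibniz, hEz, hEq2, smul_eq_mul, smul_eq_mul]
      push_cast
      ring
    obtain ⟨e, he, hpe⟩ := h1 _ p hp0 hEp
    exact ⟨e, h, p, q, hq0, hpq, hpe, hqh, hzq, fun _ => by omega⟩

theorem pf_HMP : T_HMP := by
  intro k F _ _ _ _ n v E hv hE
  have h1 : ∀ (t : ℤ) (p : MvPolynomial (Fin n) k), p ≠ 0 → Hm k E t (aeval v p) →
      ∃ e : ℕ, (e : ℤ) = t ∧ p.IsHomogeneous e := by
    intro t p hp ht
    obtain ⟨h2, h3⟩ := Pool.Agent.H20.SFG.pf_HMP k F (Fin n) v hv E hE p t ht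
    have h4 : 0 ≤ t := by
      by_contra h
      exact hp (h3 (not_le.1 h))
    exact ⟨t.toNat, Int.toNat_of_nonneg h4, h2 _ (Int.toNat_of_nonneg h4)⟩
  exact ⟨h1, fun t z hz ht => hom_frac v E hv hE h1 t z hz ht⟩

end Pool.Agent.H14.SFH
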