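import Pool.Agent.H62.HIL.Tg
import Pool.Agent.H20.SFG.MPH

/-!
Module MPH: the coefficients of the minimal polynomial of a homogeneous element, from the
statement of `H17/SD` proved in `H20/SFG`.
-/

set_option autoImplicit false

namespace Pool.Agent.H14.SFH

open MvPolynomial SC Pool.Agent.H27.LV Pool.Agent.H92.SF Pool.Agent.H3.SF

theorem pf_MPH : T_MPH := by
  intro k F _ _ _ _ n d v E hd t a ha i hi
  have hfd : FiniteDimensional (kF k v) F :=
    FiniteDimensional.of_finrank_pos (by rw [hd.deg]; exact hd.pos)
  have halg : IsAlgebraic (kF k v) a := Algebra.IsAlgebraic.isAlgebraic a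
  have h := Pool.Agent.H20.SFG.pf_MPH k F (Fin n) v E hd.eul a t halg ha
    ((minpoly (kF k v) a).natDegree - i)
  have hc : (((minpoly (kF k v) a).natDegree : ℤ) -
      (((minpoly (kF k v) a).natDegree - i : ℕ) : ℤ)) = i := by
    omega
  rw [hc] at h
  exact h

end Pool.Agent.H14.SFH
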